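import Mathlib
import Pool.Agent.H710R2.GP.Stubs

set_option autoImplicit false
set_option linter.unusedSectionVars false

open MeasureTheory
open scoped ComplexConjugate InnerProductSpace

noncomputable section

namespace Pool.Agent.H710R2.GP

open Pool.Agent.H710R2.FF
open Pool.Agent.Helper278 Pool.Agent.Helper436.SN

namespace LimAux

theorem star_evV {M N : ℕ} (V : Fin M → UN N) (q : FA M) (hq : fst' q = q) :
    (evV V q).IsHermitian := by
  have h := evV_fst V q
  rw [hq] at h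
  exact h.symm

/-- Markov inequality and union bound -/
theorem markov {m : ℕ} {Ω : Type} [MeasurableSpace Ω] (μ : Measure Ω) [IsProbabilityMeasure μ]
    (hm : 0 < m) (f : Fin m → Ω → ℝ) (hf : ∀ j, Integrable (f j) μ) (h0 : ∀ j ω, 0 ≤ f j ω)
    (hmeas : ∀ j, Measurable (f j))
    (ρ R : ℝ) (hρ : 0 < ρ) (hR : 8 * m * ρ ^ 2 ≤ R ^ 2) (hI : ∀ j, ∫ ω, f j ω ∂μ ≤ (2 * ρ) ^ 2) :
    (1 / 2 : ℝ) ≤ μ.real {ω | ∀ j, f j ω ≤ R ^ 2} := by
  have hm' : (0 : ℝ) < m := by exact_mod_cast hm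
  set t : ℝ := 8 * m * ρ ^ 2 with ht
  have ht0 : 0 < t := by positivity
  have h1 : ∀ j, μ.real {ω | t ≤ f j ω} ≤ 1 / (2 * m) := by
    intro j
    have h2 := mul_meas_ge_le_integral_of_nonneg (Filter.Eventually.of_forall (h0 j)) (hf j) t
    have h3 : t * μ.real {ω | t ≤ f j ω} ≤ (2 * ρ) ^ 2 := h2.trans (hI j)
    have h4 : μ.real {ω | t ≤ f j ω} ≤ (2 * ρ) ^ 2 / t := by
      rw [le_div_iff₀ ht0]; linarith
    refine h4.trans (le_of_eq ?_)
    rw [ht]; field_simp; ring
  have h5 : μ.real (⋃ j, {ω | t ≤ f j ω}) ≤ 1 / 2 := by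
    refine (measureReal_iUnion_fintype_le _).trans ?_
    calc ∑ j, μ.real {ω | t ≤ f j ω} ≤ ∑ _j : Fin m, (1 / (2 * m) : ℝ) :=
          Finset.sum_le_sum fun j _ => h1 j
      _ = 1 / 2 := by
          rw [Finset.sum_const, Finset.card_univ, Fintype.card_fin, nsmul_eq_mul]
          field_simp
  have hms : MeasurableSet (⋃ j, {ω | t ≤ f j ω}) :=
    MeasurableSet.iUnion fun j => measurableSet_le measurable_const (hmeas j)
  have h6 : μ.real (⋃ j, {ω | t ≤ f j ω})ᶜ = 1 - μ.real (⋃ j, {ω | t ≤ f j ω}) :=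
    probReal_compl_eq_one_sub hms
  have h7 : (⋃ j, {ω | t ≤ f j ω})ᶜ ⊆ {ω | ∀ j, f j ω ≤ R ^ 2} := by
    intro ω hω j
    simp only [Set.mem_compl_iff, Set.mem_iUnion, Set.mem_ofPred_eq, not_exists, not_le] at hω
    exact (hω j).le.trans hR
  have h8 := measureReal_mono (μ := μ) h7
  linarith

/-- the numerical limit -/
theorem numeric (X Y : ℝ) (hX : 0 < X) (hY : 0 < Y)
    (h : ∃ N₀ : ℕ, ∀ N ≥ N₀, (1 / 2 : ℝ) ≤ X ^ N * Y ^ (N ^ 2)) : 1 ≤ Y := by
  by_contra hlt
  push Not at hlt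
  obtain ⟨N₀, hN₀⟩ := h
  have h1 : Filter.Tendsto (fun N : ℕ => X * Y ^ N) Filter.atTop (nhds (X * 0)) :=
    (tendsto_pow_atTop_nhds_zero_of_lt_one hY.le hlt).const_mul X
  rw [mul_zero] at h1
  obtain ⟨N₁, hN₁⟩ := ((tendsto_order.1 h1).2 (1 / 4) (by norm_num)).exists_forall_of_atTop
  have h2 := hN₀ (max N₀ (max N₁ 1)) (le_max_left _ _)
  set N := max N₀ (max N₁ 1) with hN
  have hN1 : N₁ ≤ N := (le_max_left _ _).trans (le_max_right _ _)
  have hN2 : 1 ≤ N := (le_max_right _ _).trans (le_max_right _ _)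
  have h3 : X * Y ^ N ≤ 1 / 4 := (hN₁ N hN1).le
  have h4 : X ^ N * Y ^ (N ^ 2) = (X * Y ^ N) ^ N := by
    rw [mul_pow, ← pow_mul, sq]
  rw [h4] at h2
  have h5 : (X * Y ^ N) ^ N ≤ (1 / 4 : ℝ) ^ N := pow_le_pow_left₀ (by positivity) h3 N
  have h6 : (1 / 4 : ℝ) ^ N ≤ (1 / 4 : ℝ) ^ 1 :=
    pow_le_pow_of_le_one (by norm_num) (by norm_num) hN2
  linarith

end LimAux

open LimAux in
theorem main_matrix' (k m : ℕ) : ∃ c : ℝ, 0 < c ∧ ∀ (M : ℕ) (e : Fin m → Fin M)
    (_ : Function.Injective e) (q : Fin (k + 1) → FA M) (_ : ∀ i, fst' (q i) = q i)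
    (P : Fin m → NP (k + 1)) (ρ δ : ℝ), 0 < ρ → 0 < δ → δ ≤ 1 →
    (∀ j, n2 (leftReg (FreeGroup (Fin M)) (FreeGroup.of (e j)) -
        evA (fun i => imc (lamA M (q i))) (P j)) ≤ ρ) →
    (∀ j, Modu (P j) δ ρ) → c * δ ^ k ≤ ρ ^ (m - 1) := by
  rcases Nat.eq_zero_or_pos m with hm | hm
  · subst hm
    refine ⟨1, one_pos, fun M e _ q _ P ρ δ _ hδ hδ1 _ _ => ?_⟩
    simp only [Nat.zero_sub, pow_zero, one_mul]
    exact pow_le_one₀ hδ.le hδ1
  obtain ⟨CU, hCU, hU⟩ := net_U
  obtain ⟨CH, hCH, hH⟩ := net_H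
  obtain ⟨CB, hCB, hBall⟩ := ball_upper
  have hm' : (1 : ℝ) ≤ m := by exact_mod_cast hm
  set s : ℝ := √(32 * m) with hs
  have hs1 : 1 ≤ s := by
    rw [hs]; apply Real.one_le_sqrt.2; linarith
  have hs0 : 0 < s := by linarith
  have hss : s ^ 2 = 32 * m := Real.sq_sqrt (by positivity)
  set c1 : ℝ := (1 / s) ^ (m - 1) with hc1
  have hc10 : 0 < c1 := by positivity
  set c2 : ℝ := 1 / (CH ^ k * CU * (6 * CB) ^ m * s ^ (m - 1)) with hc2
  have hc20 : 0 < c2 := by positivity
  refine ⟨min c1 c2, lt_min hc10 hc20, fun M e he q hq P ρ δ hρ hδ hδ1 hop hmod => ?_⟩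
  set R : ℝ := s * ρ with hR
  have hR0 : 0 < R := by positivity
  have hδk : δ ^ k ≤ 1 := pow_le_one₀ hδ.le hδ1
  have hδk0 : 0 < δ ^ k := by positivity
  rcases lt_or_ge 1 R with hR1 | hR1
  · -- trivial case
    have h1 : 1 / s ≤ ρ := by
      rw [div_le_iff₀ hs0]; rw [hR] at hR1; linarith
    calc min c1 c2 * δ ^ k ≤ c1 * 1 := by
          apply mul_le_mul (min_le_left _ _) hδk hδk0.le hc10.le
      _ = c1 := mul_one _
      _ ≤ ρ ^ (m - 1) := pow_le_pow_left₀ (by positivity) h1 _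
  -- main case
  choose Cl hCl0 hCl using fun j => lip_opn (P j)
  set Cs : ℝ := ∑ j, Cl j with hCs
  have hCs0 : 0 ≤ Cs := Finset.sum_nonneg fun j _ => hCl0 j
  have hClj : ∀ j, Cl j ≤ Cs := fun j =>
    Finset.single_le_sum (f := Cl) (fun i _ => hCl0 i) (Finset.mem_univ j)
  set δ' : ℝ := ρ / (Cs + 1) with hδ'
  have hδ'0 : 0 < δ' := by positivity
  obtain ⟨CD, hCD, hD⟩ := net_D δ' hδ'0
  obtain ⟨N₀, hN₀⟩ := closeness e q hq P ρ hρ hop
  have hY := numeric (CD / (6 * CB * R) ^ m)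
    ((CH / δ) ^ k * (CU / R) * (6 * CB * R) ^ m) (by positivity) (by positivity)
    ⟨max N₀ 2, fun N hN => by
      have hNN : N₀ ≤ N := (le_max_left _ _).trans hN
      have hN2 : 2 ≤ N := (le_max_right _ _).trans hN
      have hNpos : 0 < N := by omega
      obtain ⟨KD, cD, hKD, hcD⟩ := hD N
      obtain ⟨KH, cH, hKH, hcH⟩ := hH N hNpos δ hδ hδ1
      obtain ⟨KW, cW, hKW, hcW⟩ := hU N hNpos R hR0 hR1
      have hcont : ∀ i, Continuous fun V : Fin M → UN N => imc (evV V (q i)) :=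
        fun i => continuous_imc (q i) (hq i)
      have hev : ∀ (Q : NP (k + 1)), Continuous fun V : Fin M → UN N =>
          evA (fun i => imc (evV V (q i))) Q := by
        intro Q
        induction Q using FreeAlgebra.induction with
        | grade0 r =>
          have : (fun V : Fin M → UN N => evA (fun i => imc (evV V (q i)))
              (algebraMap ℂ (NP (k + 1)) r)) = fun _ => algebraMap ℂ (Mt N) r := by
            funext V
            exact AlgHom.commutes _ _
          rw [this]; exact continuous_const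
        | grade1 i =>
          have : (fun V : Fin M → UN N => evA (fun i => imc (evV V (q i)))
              (FreeAlgebra.ι ℂ i)) = fun V => imc (evV V (q i)) := by
            funext V
            exact FreeAlgebra.lift_ι_apply _ _
          rw [this]; exact hcont i
        | mul a b ha hb =>
          simp only [map_mul]
          exact ha.mul hb
        | add a b ha hb =>
          simp only [map_add]
          exact ha.add hb
      have hfc : ∀ j, Continuous fun V : Fin M → UN N => hs2 ((V (e j) : Mt N) -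
          evA (fun i => imc (evV V (q i))) (P j)) := fun j =>
        continuous_hs2.comp ((continuous_subtype_val.comp (continuous_apply (e j))).sub
          (hev (P j)))
      have hA : ∀ V : Fin M → UN N, (fun i => imc (evV V (q i))) ∈ HC N k := fun V i =>
        imc_matrix _ (star_evV V (q i) (hq i))
      have hsc : SecondCountableTopology (Mt N) :=
        inferInstanceAs (SecondCountableTopology (Fin N → Fin N → ℂ))
      have hsc' : SecondCountableTopology (UN N) :=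
        TopologicalSpace.Subtype.secondCountableTopology _
      have hcl : (1 / 2 : ℝ) ≤ (PP (Fin M) N).real
          {V | ∀ j, hs2 ((V (e j) : Mt N) - evA (fun i => imc (evV V (q i))) (P j)) ≤ R ^ 2} := by
        refine markov (PP (Fin M) N) hm (fun j V => hs2 ((V (e j) : Mt N) -
          evA (fun i => imc (evV V (q i))) (P j))) (fun j => integrable_cont (hfc j))
          (fun j V => hs2_nonneg _) (fun j => (hfc j).measurable) ρ R hρ ?_ (hN₀ N hNN)
        rw [hR, mul_pow, hss]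
        nlinarith [sq_nonneg ρ]
      have hmod' : ∀ j, ∀ A ∈ HC N k, ∀ B ∈ HC N k, (∀ i, i ≠ 0 → A i = B i) →
          opn (A 0 - B 0) ≤ δ' → opn (evA A (P j) - evA B (P j)) ≤ ρ := by
        intro j A hA' B hB' hAB h0
        have h1 := hCl j N A B δ' hδ'0.le (fun i => by linarith [(hA' i).2])
          (fun i => by linarith [(hB' i).2]) (fun i => by
            by_cases hi : i = 0
            · rw [hi]; exact h0
            · rw [hAB i hi, sub_self]
              have : opn (0 : Mt N) = 0 := by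
                have := opn_smul 0 (0 : Mt N)
                simpa using this
              rw [this]; exact hδ'0.le)
        refine h1.trans ?_
        calc Cl j * δ' ≤ (Cs + 1) * δ' := by
              apply mul_le_mul_of_nonneg_right _ hδ'0.le
              linarith [hClj j]
          _ = ρ := by rw [hδ']; field_simp
      have hρR : ρ ≤ R := by rw [hR]; nlinarith
      have hvol := vol_ineq hNpos e he (fun V i => imc (evV V (q i))) hA P ρ δ δ' R hρ hδ hδ'0 hρR
        hmod hmod' hcl KD KH KW cD cH cW hcD hcH hcW ((CB * (6 * R)) ^ (N ^ 2 - N))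
        (fun X => hBall N hN2 X (6 * R) (by positivity))
      refine hvol.trans ?_
      have b1 : (KD : ℝ) * (KH : ℝ) ^ k * (KW : ℝ) * ((CB * (6 * R)) ^ (N ^ 2 - N)) ^ m ≤
          CD ^ N * ((CH / δ) ^ (N ^ 2)) ^ k * (CU / R) ^ (N ^ 2) *
            ((CB * (6 * R)) ^ (N ^ 2 - N)) ^ m := by
        gcongr
      refine b1.trans (le_of_eq ?_)
      have hNs : N ≤ N ^ 2 := by nlinarith
      have b2 : ((CB * (6 * R)) ^ (N ^ 2 - N)) ^ m =
          ((6 * CB * R) ^ m) ^ (N ^ 2) / ((6 * CB * R) ^ m) ^ N := by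
        have hx : CB * (6 * R) = 6 * CB * R := by ring
        rw [hx, pow_sub₀ _ (by positivity) hNs, mul_pow, inv_pow, ← pow_mul, ← pow_mul,
          ← pow_mul, ← pow_mul, mul_comm (N ^ 2) m, mul_comm N m, div_eq_mul_inv]
      rw [b2]
      generalize (6 * CB * R) ^ m = Z
      generalize CH / δ = a
      generalize CU / R = b
      rw [div_pow, mul_pow, mul_pow, ← pow_mul a (N ^ 2) k, ← pow_mul a k (N ^ 2),
        mul_comm (N ^ 2) k]
      ring⟩
  -- conclusion
  have hm1 : R ^ m = R ^ (m - 1) * R := by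
    rw [← pow_succ]; congr 1; omega
  have h1 : (CH / δ) ^ k * (CU / R) * (6 * CB * R) ^ m =
      CH ^ k * CU * (6 * CB) ^ m * R ^ (m - 1) / δ ^ k := by
    rw [div_pow, mul_pow (6 * CB) R m, hm1]
    field_simp
  rw [h1, le_div_iff₀ hδk0, one_mul, hR, mul_pow s ρ] at hY
  calc min c1 c2 * δ ^ k ≤ c2 * (CH ^ k * CU * (6 * CB) ^ m * (s ^ (m - 1) * ρ ^ (m - 1))) := by
        apply mul_le_mul (min_le_right _ _) hY hδk0.le hc20.le
    _ = ρ ^ (m - 1) := by
        rw [hc2]; field_simp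

theorem main_G' (k m : ℕ) : ∃ c : ℝ, 0 < c ∧ ∀ (ι : Type) (e : Fin m → ι)
    (_ : Function.Injective e) (a : Fin (k + 1) → EllTwo (FreeGroup ι) →L[ℂ] EllTwo (FreeGroup ι)),
    (∀ i, a i ∈ LG (FreeGroup ι)) → (∀ i, IsSelfAdjoint (a i)) → (∀ i, ‖a i‖ ≤ 1) →
    ∀ (P : Fin m → NP (k + 1)) (ρ δ : ℝ), 0 < ρ → 0 < δ → δ ≤ 1 →
    (∀ j, n2 (leftReg (FreeGroup ι) (FreeGroup.of (e j)) - evA a (P j)) ≤ ρ) →
    (∀ j, Modu (P j) δ ρ) → c * δ ^ k ≤ ρ ^ (m - 1) := by
  obtain ⟨c, hc, hmain⟩ := main_matrix' k m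
  refine ⟨c / 2 ^ (m - 1), by positivity, fun ι e he a ha hsa hn P ρ δ hρ hδ hδ1 hop hmod => ?_⟩
  obtain ⟨q, hq, hqa⟩ := approx_G a (fun i => LG_sub_RC (ha i)) hsa hn P ρ hρ
  obtain ⟨M, s, e', q', hs, hse, hq'⟩ := exists_finite e he q
  have hq'' : ∀ i, fst' (q' i) = q' i := fun i =>
    mapF_fst s hs (q' i) (by rw [hq' i]; exact hq i)
  have he' : Function.Injective e' := by
    intro x y hxy
    apply he
    rw [← hse x, ← hse y, hxy]
  have hop' : ∀ j, n2 (leftReg (FreeGroup (Fin M)) (FreeGroup.of (e' j)) -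
        evA (fun i => imc (lamA M (q' i))) (P j)) ≤ 2 * ρ := by
    intro j
    rw [n2_mapF s hs q' hq'' (P j) (e' j), hse j]
    have h1 : (fun i => imc (lamG (FreeGroup ι) (mapF s (q' i)))) =
        fun i => imc (lamG (FreeGroup ι) (q i)) := by
      funext i; rw [hq' i]
    rw [h1]
    have h2 : leftReg (FreeGroup ι) (FreeGroup.of (e j)) -
          evA (fun i => imc (lamG (FreeGroup ι) (q i))) (P j) =
        (leftReg (FreeGroup ι) (FreeGroup.of (e j)) - evA a (P j)) -
          (evA (fun i => imc (lamG (FreeGroup ι) (q i))) (P j) - evA a (P j)) := by abel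
    rw [h2]
    refine (n2_sub _ _).trans ?_
    have := hop j
    have := hqa j
    linarith
  have hmod' : ∀ j, Modu (P j) δ (2 * ρ) := by
    intro j N A hA B hB h0 h1
    refine (hmod j N A hA B hB h0 h1).trans ?_
    nlinarith [sq_nonneg ρ]
  have h3 := hmain M e' he' q' hq'' P (2 * ρ) δ (by positivity) hδ hδ1 hop' hmod'
  rw [mul_pow] at h3
  rw [div_mul_eq_mul_div, div_le_iff₀ (by positivity)]
  linarith

end Pool.Agent.H710R2.GP
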